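import Pool.Agent.TH159.IA.Defs2

/-! Division by the equation `Z ^ 2 - (z - 2 + z⁻¹) + t`, with the regions of the exponents, and
the restriction to the curve `z = u ^ 2`, `Z = u - u⁻¹`. -/

set_option autoImplicit false

namespace Pool.Agent.TH386.IA

open Pool.Agent.TH396.IN Pool.Agent.TH159.IA

section div
variable {K : Type} [Field K] {P : Type} [AddCommMonoid P]

/-- the equation `Z ^ 2 - (z - 2 + z⁻¹) + t` of the curve -/
noncomputable def Dl (P : Type) [AddCommMonoid P] (t : K) : LP K (ℕ × P) :=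
  AddMonoidAlgebra.single (0, (2, 0)) 1 - AddMonoidAlgebra.single (1, (0, 0)) 1 +
    AddMonoidAlgebra.single (0, (0, 0)) 2 - AddMonoidAlgebra.single (-1, (0, 0)) 1 +
    AddMonoidAlgebra.single (0, (0, 0)) t

/-- all exponents of `f` are in `S` -/
def SupP (S : Set (ℤ × (ℕ × P))) (f : LP K (ℕ × P)) : Prop := ∀ m, f.coeff m ≠ 0 → m ∈ S

theorem SupP.zero (S : Set (ℤ × (ℕ × P))) : SupP S (0 : LP K (ℕ × P)) := by
  intro m hm
  simp at hm

theorem SupP.add {S : Set (ℤ × (ℕ × P))} {f g : LP K (ℕ × P)} (hf : SupP S f) (hg : SupP S g) :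
    SupP S (f + g) := by
  intro m hm
  rw [AddMonoidAlgebra.coeff_add, Finsupp.add_apply] at hm
  by_cases h : f.coeff m = 0
  · rw [h, zero_add] at hm
    exact hg m hm
  · exact hf m h

theorem SupP.neg {S : Set (ℤ × (ℕ × P))} {f : LP K (ℕ × P)} (hf : SupP S f) :
    SupP S (-f) := by
  intro m hm
  rw [AddMonoidAlgebra.coeff_neg, Finsupp.neg_apply, neg_ne_zero] at hm
  exact hf m hm

theorem SupP.single {S : Set (ℤ × (ℕ × P))} {m : ℤ × (ℕ × P)} (hm : m ∈ S) (r : K) :
    SupP S (AddMonoidAlgebra.single m r : LP K (ℕ × P)) := by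
  classical
  intro m' hm'
  rw [AddMonoidAlgebra.coeff_single, Finsupp.single_apply] at hm'
  by_cases h : m = m'
  · rwa [← h]
  · rw [if_neg h] at hm'
    exact absurd rfl hm'

/-- the regions of the remainders -/
def Rm {P : Type} (dg : P → ℕ) (α β p q : ℝ) : Set (ℤ × (ℕ × P)) :=
  {m | m ∈ Rg (dgS dg) α β p q ∧ m.2.1 ≤ 1}

/-- one step of the division -/
def DS (dg : P → ℕ) (α β p q : ℝ) (t : K) (f : LP K (ℕ × P)) : Prop :=
  ∃ g f1 : LP K (ℕ × P), f = g + f1 * Dl P t ∧ SupP (Rm dg α β p q) g ∧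
    SupP (Rg (dgS dg) α β (p + 2 * α) (q - 2 * β)) f1

theorem DS.zero (dg : P → ℕ) (α β p q : ℝ) (t : K) : DS dg α β p q t 0 :=
  ⟨0, 0, by simp, SupP.zero _, SupP.zero _⟩

theorem DS.add {dg : P → ℕ} {α β p q : ℝ} {t : K} {f f' : LP K (ℕ × P)}
    (h : DS dg α β p q t f) (h' : DS dg α β p q t f') : DS dg α β p q t (f + f') := by
  obtain ⟨g, f1, rfl, h1, h2⟩ := h
  obtain ⟨g', f1', rfl, h1', h2'⟩ := h'
  exact ⟨g + g', f1 + f1', by ring, h1.add h1', h2.add h2'⟩

theorem DS.neg {dg : P → ℕ} {α β p q : ℝ} {t : K} {f : LP K (ℕ × P)}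
    (h : DS dg α β p q t f) : DS dg α β p q t (-f) := by
  obtain ⟨g, f1, rfl, h1, h2⟩ := h
  exact ⟨-g, -f1, by ring, h1.neg, h2.neg⟩

theorem DS.single {dg : P → ℕ} {α β : ℝ} (hα : 1 / 2 ≤ α) (hβ : 1 / 2 ≤ β) (t : K) (p q : ℝ)
    (c : P) (n : ℕ) : ∀ (a : ℤ) (r : K), ((a, (n, c)) : ℤ × (ℕ × P)) ∈ Rg (dgS dg) α β p q →
      DS dg α β p q t (AddMonoidAlgebra.single (a, (n, c)) r) := by
  induction n using Nat.strong_induction_on with
  | _ n ih =>
    intro a r ha
    rcases Nat.lt_or_ge n 2 with hn | hn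
    · exact ⟨AddMonoidAlgebra.single (a, (n, c)) r, 0, by simp,
        SupP.single (S := Rm dg α β p q) ⟨ha, by simp only; omega⟩ r, SupP.zero _⟩
    · obtain ⟨k, rfl⟩ : ∃ k, n = k + 2 := ⟨n - 2, by omega⟩
      obtain ⟨ha1, ha2⟩ := ha
      simp only [dgS] at ha1 ha2
      push_cast at ha1 ha2
      have key : (AddMonoidAlgebra.single (a, (k + 2, c)) r : LP K (ℕ × P)) =
          ((0 : LP K (ℕ × P)) + AddMonoidAlgebra.single (a, (k, c)) r * Dl P t) +
          (AddMonoidAlgebra.single (a + 1, (k, c)) r + -AddMonoidAlgebra.single (a, (k, c)) (r * 2)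
            + AddMonoidAlgebra.single (a - 1, (k, c)) r
            + -AddMonoidAlgebra.single (a, (k, c)) (r * t)) := by
        unfold Dl
        simp only [mul_add, mul_sub, AddMonoidAlgebra.single_mul_single, Prod.mk_add_mk, add_zero,
          mul_one, ← sub_eq_add_neg a 1]
        abel
      rw [key]
      have hk : k < k + 2 := by omega
      refine DS.add ?_ (((DS.add ?_ ?_).add ?_).add ?_)
      · refine ⟨0, _, rfl, SupP.zero _,
          SupP.single (S := Rg (dgS dg) α β (p + 2 * α) (q - 2 * β)) ⟨?_, ?_⟩ r⟩ <;>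
          simp only [dgS] <;> push_cast <;> nlinarith
      · apply ih k hk
        constructor <;> simp only [dgS] <;> push_cast <;> nlinarith
      · apply DS.neg
        apply ih k hk
        constructor <;> simp only [dgS] <;> push_cast <;> nlinarith
      · apply ih k hk
        constructor <;> simp only [dgS] <;> push_cast <;> nlinarith
      · apply DS.neg
        apply ih k hk
        constructor <;> simp only [dgS] <;> push_cast <;> nlinarith

theorem DS.of_supP {dg : P → ℕ} {α β : ℝ} (hα : 1 / 2 ≤ α) (hβ : 1 / 2 ≤ β) (t : K) {p q : ℝ}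
    {f : LP K (ℕ × P)} (hf : SupP (Rg (dgS dg) α β p q) f) : DS dg α β p q t f := by
  classical
  rw [← AddMonoidAlgebra.sum_coeff_single f, Finsupp.sum]
  have : ∀ s : Finset (ℤ × (ℕ × P)), (∀ m ∈ s, f.coeff m ≠ 0) →
      DS dg α β p q t (∑ m ∈ s, AddMonoidAlgebra.single m (f.coeff m)) := by
    intro s
    induction s using Finset.induction_on with
    | empty => intro _; simpa using DS.zero dg α β p q t
    | insert m s hm ih =>
      intro hs
      rw [Finset.sum_insert hm]
      refine DS.add ?_ (ih fun m' hm' => hs m' (Finset.mem_insert_of_mem hm'))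
      obtain ⟨a, n, c⟩ := m
      exact DS.single hα hβ t p q c n a _ (hf _ (hs _ (Finset.mem_insert_self _ _)))
  exact this _ fun m hm => Finsupp.mem_support_iff.1 hm

theorem div2_aux {dg : P → ℕ} {α β : ℝ} (hα : 1 / 2 ≤ α) (hβ : 1 / 2 ≤ β) (t : K) (E : ℕ) :
    ∀ (p q : ℝ) (f : LP K (ℕ × P)), q - p < 2 * E * (α + β) → SupP (Rg (dgS dg) α β p q) f →
      ∃ h : ℕ → LP K (ℕ × P), f = ∑ e ∈ Finset.range E, h e * Dl P t ^ e ∧
        ∀ e m, (h e).coeff m ≠ 0 → m.2.1 ≤ 1 ∧
          m ∈ Rg (dgS dg) α β (p + 2 * e * α) (q - 2 * e * β) := by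
  induction E with
  | zero =>
    intro p q f hE hf
    refine ⟨fun _ => 0, ?_, fun e m hm => by simp at hm⟩
    have : f.coeff = 0 := by
      ext m
      by_contra hc
      obtain ⟨h1, h2⟩ := hf m (by simpa using hc)
      have h3 : (0 : ℝ) ≤ (dgS dg m.2 : ℕ) := Nat.cast_nonneg _
      push_cast at hE
      nlinarith
    simpa using AddMonoidAlgebra.coeff_eq_zero.1 this
  | succ E ih =>
    intro p q f hE hf
    obtain ⟨g, f1, rfl, hg, hf1⟩ := DS.of_supP hα hβ t hf
    obtain ⟨h, hh1, hh2⟩ := ih (p + 2 * α) (q - 2 * β) f1 (by push_cast at hE; nlinarith) hf1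
    refine ⟨fun e => Nat.casesOn e g h, ?_, ?_⟩
    · rw [Finset.sum_range_succ']
      simp only [pow_zero, mul_one]
      rw [add_comm g, hh1, Finset.sum_mul]
      congr 1
      apply Finset.sum_congr rfl
      intro e _
      ring
    · rintro (_ | e) m hm
      · obtain ⟨h3, h4⟩ := hg m hm
        refine ⟨h4, ?_⟩
        simpa using h3
      · obtain ⟨h3, h4⟩ := hh2 e m hm
        refine ⟨h3, ?_⟩
        obtain ⟨h5, h6⟩ := h4
        constructor <;> push_cast <;> linarith

/-- division by the equation of the curve -/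
theorem div2 {dg : P → ℕ} {α β : ℝ} (hα : 1 / 2 ≤ α) (hβ : 1 / 2 ≤ β) (t : K) {p q : ℝ}
    {f : LP K (ℕ × P)} (hf : ∀ m, f.coeff m ≠ 0 → m ∈ Rg (dgS dg) α β p q) :
    ∃ (E : ℕ) (h : ℕ → LP K (ℕ × P)), f = ∑ e ∈ Finset.range E, h e * Dl P t ^ e ∧
      ∀ e m, (h e).coeff m ≠ 0 → m.2.1 ≤ 1 ∧
        p + α * (2 * e + m.2.1 + dg m.2.2) ≤ m.1 ∧ (m.1 : ℝ) ≤ q - β * (2 * e + m.2.1 + dg m.2.2) := by
  obtain ⟨E, hE⟩ := exists_nat_gt (q - p)
  obtain ⟨h, h1, h2⟩ := div2_aux hα hβ t E p q f (by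
    have : (0 : ℝ) ≤ E := Nat.cast_nonneg _
    nlinarith) hf
  refine ⟨E, h, h1, fun e m hm => ?_⟩
  obtain ⟨h3, h4, h5⟩ := h2 e m hm
  simp only [dgS] at h4 h5
  push_cast at h4 h5
  exact ⟨h3, by linarith, by linarith⟩

/-! slices -/

/-- the coefficient of the spectator monomial `c` -/
noncomputable def sl (c : P) (h : LP K (ℕ × P)) : AddMonoidAlgebra K (ℤ × ℕ) :=
  .ofCoeff (h.coeff.comapDomain (fun m : ℤ × ℕ => ((m.1, (m.2, c)) : ℤ × (ℕ × P)))
    (fun m _ m' _ hm => by
      simp only [Prod.mk.injEq, and_true] at hm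
      exact Prod.ext hm.1 hm.2))

theorem coeff_sl (c : P) (h : LP K (ℕ × P)) (m : ℤ × ℕ) :
    (sl c h).coeff m = h.coeff (m.1, (m.2, c)) := rfl

theorem sum_slices (h : LP K (ℕ × P)) : ∃ C : Finset P, (∀ c, sl c h ≠ 0 → c ∈ C) ∧
    h = ∑ c ∈ C, emb K P (sl c h) * AddMonoidAlgebra.single (0, (0, c)) 1 := by
  classical
  refine ⟨h.coeff.support.image (fun m => m.2.2), ?_, ?_⟩
  · intro c hc
    by_contra hn
    apply hc
    apply AddMonoidAlgebra.coeff_eq_zero.1
    ext m
    rw [coeff_sl]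
    by_contra h1
    apply hn
    rw [Finset.mem_image]
    exact ⟨_, Finsupp.mem_support_iff.2 (by simpa using h1), rfl⟩
  · have hsl : ∀ c : P, emb K P (sl c h) * AddMonoidAlgebra.single (0, (0, c)) 1 =
        ∑ m ∈ h.coeff.support.filter (fun m => m.2.2 = c),
          AddMonoidAlgebra.single m (h.coeff m) := by
      intro c
      have h1 : sl c h = ∑ m ∈ h.coeff.support.filter (fun m => m.2.2 = c),
          AddMonoidAlgebra.single (m.1, m.2.1) (h.coeff m) := by
        apply AddMonoidAlgebra.coeff_injective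
        ext ⟨a, n⟩
        rw [coeff_sl, AddMonoidAlgebra.coeff_sum, Finsupp.finsetSum_apply]
        simp only [AddMonoidAlgebra.coeff_single, Finsupp.single_apply]
        by_cases h2 : h.coeff (a, (n, c)) = 0
        · rw [h2, Finset.sum_eq_zero]
          rintro ⟨a', n', c'⟩ hm
          rw [Finset.mem_filter] at hm
          split_ifs with h3
          · simp only [Prod.mk.injEq] at h3 hm
            rw [h3.1, h3.2, hm.2, h2]
          · rfl
        · rw [Finset.sum_eq_single (a, (n, c))]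
          · simp
          · rintro ⟨a', n', c'⟩ hm hne
            rw [Finset.mem_filter] at hm
            rw [if_neg]
            intro h3
            simp only [Prod.mk.injEq] at h3 hm
            exact hne (by rw [h3.1, h3.2, hm.2])
          · intro hm
            exact (hm (Finset.mem_filter.2 ⟨Finsupp.mem_support_iff.2 h2, rfl⟩)).elim
      rw [h1, map_sum, Finset.sum_mul]
      apply Finset.sum_congr rfl
      rintro ⟨a, n, c'⟩ hm
      rw [Finset.mem_filter] at hm
      obtain ⟨_, rfl⟩ := hm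
      rw [emb_single, AddMonoidAlgebra.single_mul_single]
      simp
    rw [Finset.sum_congr rfl fun c _ => hsl c]
    have h5 := Finset.sum_fiberwise_of_maps_to (s := h.coeff.support)
      (t := h.coeff.support.image (fun m => m.2.2)) (g := fun m => m.2.2)
      (fun m hm => Finset.mem_image_of_mem _ hm)
      (fun m => (AddMonoidAlgebra.single m (h.coeff m) : LP K (ℕ × P)))
    rw [h5]
    exact (AddMonoidAlgebra.sum_coeff_single h).symm

end div

section curve
variable {F : Type} [Field F]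

theorem bi_single {S : Type} [CommRing S] [Algebra F S] (c : Sˣ) (D : S) (m : ℤ × ℕ) (r : F) :
    bi c D (AddMonoidAlgebra.single m r) =
      algebraMap F S r * (((c ^ (2 * m.1) : Sˣ) : S) * D ^ m.2) := by
  unfold bi
  simp [bm]

theorem uu_zpow (k : ℤ) : (((uu F) ^ k : (LZ F)ˣ) : LZ F) = AddMonoidAlgebra.single k 1 := by
  induction k using Int.induction_on with
  | zero => rw [zpow_zero, Units.val_one, AddMonoidAlgebra.one_def]
  | succ k ih =>
    rw [zpow_add_one, Units.val_mul, ih]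
    change AddMonoidAlgebra.single _ _ * AddMonoidAlgebra.single _ _ = _
    rw [AddMonoidAlgebra.single_mul_single, mul_one]
  | pred k ih =>
    rw [zpow_sub_one, Units.val_mul, ih]
    change AddMonoidAlgebra.single _ _ * AddMonoidAlgebra.single _ _ = _
    rw [AddMonoidAlgebra.single_mul_single, mul_one, sub_eq_add_neg]

theorem om0 : om 0 (uu F) = AddMonoidAlgebra.single 1 1 - AddMonoidAlgebra.single (-1) 1 := by
  unfold om
  simp only [mul_zero, pow_zero, one_mul]
  rfl

/-- the coefficients of the restriction to the curve -/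
def cc (x : AddMonoidAlgebra F (ℤ × ℕ)) (i : ℤ) : F :=
  if 2 ∣ i then x.coeff (i / 2, 0) else x.coeff ((i - 1) / 2, 1) - x.coeff ((i + 1) / 2, 1)

theorem GG0_single (a : ℤ) (n : ℕ) (hn : n ≤ 1) (r : F) (i : ℤ) :
    (GG 0 (AddMonoidAlgebra.single (a, n) r)).coeff i =
      cc (AddMonoidAlgebra.single (a, n) r) i := by
  classical
  unfold GG cc
  rw [bi_single, uu_zpow, om0]
  have h0 : algebraMap F (LZ F) r = AddMonoidAlgebra.single 0 r := rfl
  rw [h0]
  simp only [AddMonoidAlgebra.coeff_single, Finsupp.single_apply, Prod.mk.injEq]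
  interval_cases n
  · rw [pow_zero, mul_one, AddMonoidAlgebra.single_mul_single, zero_add, mul_one,
      AddMonoidAlgebra.coeff_single, Finsupp.single_apply]
    split_ifs <;> first | rfl | (exfalso; omega) | (exfalso; tauto) | simp
  · rw [pow_one, mul_sub, mul_sub, AddMonoidAlgebra.single_mul_single,
      AddMonoidAlgebra.single_mul_single, AddMonoidAlgebra.single_mul_single,
      AddMonoidAlgebra.single_mul_single, zero_add, zero_add, mul_one, mul_one,
      AddMonoidAlgebra.coeff_sub, Finsupp.sub_apply, AddMonoidAlgebra.coeff_single,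
      AddMonoidAlgebra.coeff_single, Finsupp.single_apply, Finsupp.single_apply]
    split_ifs <;> first | rfl | (exfalso; omega) | (exfalso; tauto) | simp

theorem GG0_coeff {g : AddMonoidAlgebra F (ℤ × ℕ)} (hg : ∀ m, g.coeff m ≠ 0 → m.2 ≤ 1) (i : ℤ) :
    (GG 0 g).coeff i = cc g i := by
  classical
  have key : ∀ s : Finset (ℤ × ℕ), (∀ m ∈ s, g.coeff m ≠ 0) → ∀ i : ℤ,
      (GG 0 (∑ m ∈ s, AddMonoidAlgebra.single m (g.coeff m))).coeff i =
        cc (∑ m ∈ s, AddMonoidAlgebra.single m (g.coeff m)) i := by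
    intro s
    induction s using Finset.induction_on with
    | empty =>
      intro _ i
      unfold GG cc
      simp
    | insert m s hm ih =>
      intro hs i
      have h1 := ih (fun m' hm' => hs m' (Finset.mem_insert_of_mem hm')) i
      obtain ⟨a, n⟩ := m
      have h2 := GG0_single a n (hg _ (hs _ (Finset.mem_insert_self _ _))) (g.coeff (a, n)) i
      rw [Finset.sum_insert hm]
      have h3 : (GG 0 (AddMonoidAlgebra.single (a, n) (g.coeff (a, n)) +
          ∑ m ∈ s, AddMonoidAlgebra.single m (g.coeff m))).coeff i =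
          (GG 0 (AddMonoidAlgebra.single (a, n) (g.coeff (a, n)))).coeff i +
          (GG 0 (∑ m ∈ s, AddMonoidAlgebra.single m (g.coeff m))).coeff i := by
        unfold GG
        rw [map_add, AddMonoidAlgebra.coeff_add, Finsupp.add_apply]
      rw [h3, h1, h2]
      unfold cc
      simp only [AddMonoidAlgebra.coeff_add, Finsupp.add_apply]
      split_ifs <;> ring
  have := key g.coeff.support (fun m hm => Finsupp.mem_support_iff.1 hm) i
  have h4 : ∑ m ∈ g.coeff.support, AddMonoidAlgebra.single m (g.coeff m) = g :=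
    AddMonoidAlgebra.sum_coeff_single g
  rwa [h4] at this

theorem GG0_ne {g : AddMonoidAlgebra F (ℤ × ℕ)} (hg : ∀ m, g.coeff m ≠ 0 → m.2 ≤ 1)
    (h0 : g ≠ 0) : GG 0 g ≠ 0 := by
  intro h
  apply h0
  have hc : ∀ i, cc g i = 0 := fun i => by
    rw [← GG0_coeff hg, h]; simp
  have h1 : ∀ a : ℤ, g.coeff (a, 0) = 0 := by
    intro a
    have := hc (2 * a)
    unfold cc at this
    rw [if_pos (dvd_mul_right _ _), Int.mul_ediv_cancel_left _ (by norm_num)] at this
    exact this
  have h2 : ∀ b : ℤ, g.coeff (b, 1) = g.coeff (b + 1, 1) := by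
    intro b
    have := hc (2 * b + 1)
    unfold cc at this
    rw [if_neg (by omega), show (2 * b + 1 - 1) / 2 = b by omega,
      show (2 * b + 1 + 1) / 2 = b + 1 by omega] at this
    exact sub_eq_zero.1 this
  have h3 : ∀ (b : ℤ) (n : ℕ), g.coeff (b, 1) = g.coeff (b + n, 1) := by
    intro b n
    induction n with
    | zero => simp
    | succ n ih =>
      rw [ih, h2]
      push_cast
      rw [add_assoc]
  have h4 : ∀ b : ℤ, g.coeff (b, 1) = 0 := by
    intro b
    by_contra hb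
    have : Set.Infinite (g.coeff.support : Set (ℤ × ℕ)) := by
      apply Set.infinite_of_injective_forall_mem (f := fun n : ℕ => (b + (n : ℤ), 1))
      · intro n n' hn
        simp only [Prod.mk.injEq, add_right_inj, Nat.cast_inj, and_true] at hn
        exact hn
      · intro n
        rw [Finset.mem_coe, Finsupp.mem_support_iff, ← h3 b n]
        exact hb
    exact this (Finset.finite_toSet _)
  apply AddMonoidAlgebra.coeff_eq_zero.1
  ext ⟨a, n⟩
  by_contra hne
  have hn := hg (a, n) (by simpa using hne)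
  simp only at hn
  interval_cases n
  · exact hne (by simpa using h1 a)
  · exact hne (by simpa using h4 a)

theorem GG0_window {g : AddMonoidAlgebra F (ℤ × ℕ)} (hg : ∀ m, g.coeff m ≠ 0 → m.2 ≤ 1)
    {α β p q : ℝ} (hα : 1 / 2 ≤ α) (hβ : 1 / 2 ≤ β)
    (hR : ∀ m, g.coeff m ≠ 0 → p + α * m.2 ≤ m.1 ∧ (m.1 : ℝ) ≤ q - β * m.2) (i : ℤ)
    (hi : (GG 0 g).coeff i ≠ 0) : 2 * p ≤ i ∧ (i : ℝ) ≤ 2 * q := by
  rw [GG0_coeff hg] at hi
  unfold cc at hi
  split_ifs at hi with h
  · obtain ⟨h1, h2⟩ := hR _ hi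
    obtain ⟨a, rfl⟩ := h
    rw [Int.mul_ediv_cancel_left _ (by norm_num)] at h1 h2
    push_cast at h1 h2 ⊢
    constructor <;> linarith
  · obtain ⟨b, rfl⟩ : ∃ b, i = 2 * b + 1 := ⟨i / 2, by omega⟩
    rw [show (2 * b + 1 - 1) / 2 = b by omega, show (2 * b + 1 + 1) / 2 = b + 1 by omega] at hi
    rcases ne_or_eq (g.coeff (b, 1)) 0 with hb | hb
    · obtain ⟨h1, h2⟩ := hR _ hb
      push_cast at h1 h2 ⊢
      constructor <;> linarith
    · rw [hb, zero_sub, neg_ne_zero] at hi
      obtain ⟨h1, h2⟩ := hR _ hi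
      push_cast at h1 h2 ⊢
      constructor <;> linarith

end curve

section final
variable {K : Type} [Field K] {P : Type} [AddCommMonoid P]

theorem Hk_zero (t : K) : Hk P 0 t = Dl P t := by
  unfold Hk Dl
  simp

theorem win2 (F : Type) [Field F] {T : Set (ℤ × ℕ)} {α β p q : ℝ} (hα : 1 / 2 ≤ α)
    (hβ : 1 / 2 ≤ β) (hT : ∀ m ∈ T, m.2 ≤ 1 ∧ p + α * m.2 ≤ m.1 ∧ (m.1 : ℝ) ≤ q - β * m.2) :
    Win F 0 T (2 * p) (2 * q) := by
  intro g₀ hg hgT
  exact ⟨GG0_ne (fun m hm => (hT m (hgT m hm)).1) hg, fun i hi =>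
    GG0_window (fun m hm => (hT m (hgT m hm)).1) hα hβ (fun m hm => (hT m (hgT m hm)).2) i hi⟩

/-- division by the equation, with spectators separated -/
theorem div2J {dg : P → ℕ} {α β : ℝ} (hα : 1 / 2 ≤ α) (hβ : 1 / 2 ≤ β) (t : K) {p q : ℝ}
    {f : LP K (ℕ × P)} (hf : ∀ m, f.coeff m ≠ 0 → m ∈ Rg (dgS dg) α β p q) :
    ∃ (J : Finset (ℕ × P)) (g : ℕ × P → AddMonoidAlgebra K (ℤ × ℕ)),
      f = ∑ j ∈ J, emb K P (g j) * Hk P 0 t ^ j.1 * AddMonoidAlgebra.single (0, (0, j.2)) 1 ∧
      ∀ j, ∀ (F : Type) [Field F], Win F 0 {m | (g j).coeff m ≠ 0}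
        (2 * p + 2 * α * (2 * j.1 + dg j.2)) (2 * q - 2 * β * (2 * j.1 + dg j.2)) := by
  classical
  obtain ⟨E, h, h1, h2⟩ := div2 hα hβ t hf
  choose C hC1 hC2 using fun e => sum_slices (h e)
  obtain ⟨D, hD⟩ : ∃ D : Finset P, D = (Finset.range E).biUnion C := ⟨_, rfl⟩
  refine ⟨Finset.range E ×ˢ D, fun j => sl j.2 (h j.1), ?_, ?_⟩
  · rw [Finset.sum_product, h1]
    apply Finset.sum_congr rfl
    intro e he
    simp only
    have h3 : h e = ∑ c ∈ D, emb K P (sl c (h e)) * AddMonoidAlgebra.single (0, (0, c)) 1 := by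
      conv_lhs => rw [hC2 e]
      apply Finset.sum_subset
      · rw [hD]
        exact Finset.subset_biUnion_of_mem C he
      · intro c _ hc
        have h4 : sl c (h e) = 0 := by
          by_contra h5
          exact hc (hC1 e c h5)
        rw [h4, map_zero, zero_mul]
    rw [Hk_zero]
    conv_lhs => rw [h3]
    rw [Finset.sum_mul]
    apply Finset.sum_congr rfl
    intro c _
    ring
  · intro j F _
    have h6 : ∀ m ∈ {m : ℤ × ℕ | (sl j.2 (h j.1)).coeff m ≠ 0}, m.2 ≤ 1 ∧
        (p + α * (2 * j.1 + dg j.2)) + α * m.2 ≤ m.1 ∧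
        (m.1 : ℝ) ≤ (q - β * (2 * j.1 + dg j.2)) - β * m.2 := by
      intro m hm
      obtain ⟨h7, h8, h9⟩ := h2 j.1 (m.1, (m.2, j.2)) hm
      simp only at h7 h8 h9
      exact ⟨h7, by linarith, by linarith⟩
    have := win2 F hα hβ h6
    convert this using 1 <;> ring

end final

end Pool.Agent.TH386.IA
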