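import Pool.Agent.TH386.IA.Div2
import Pool.Agent.TH396.IN.Ind

/-! KEY2 from the common core. -/

set_option autoImplicit false

namespace Pool.Agent.TH386.IA

open Pool.Agent.TH396.IN Pool.Agent.TH159.IA

/-- the statement of the common core for `k = 0` -/
def Core0 (ι : Type) : Prop :=
  ∀ (F : Type) [Field F] [CharZero F] (P : Type) [AddCommMonoid P] (σ s : ℝ), 0 < σ → σ < 1 / 2 →
    1 ≤ s → ∀ e : ι → (LP F (ℕ × P) →ₐ[F] F),
    ∃ e' : ι → (LP (HK F) (ℕ × P) →ₐ[HK F] HK F),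
      ∀ (f : LP (HK F) (ℕ × P)) (w : ι → ℕ) (J : Finset (ℕ × P))
        (g : ℕ × P → AddMonoidAlgebra (HK F) (ℤ × ℕ)) (p₀ p₁ : ℕ × P → ℝ), f ≠ 0 → Mult e' w f →
        f = ∑ j ∈ J, emb (HK F) P (g j) * Hk P 0 (HahnSeries.single 1 1) ^ j.1 *
          AddMonoidAlgebra.single (0, (0, j.2)) 1 →
        (∀ j ∈ J, Win F 0 {m | (g j).coeff m ≠ 0} (p₀ j) (p₁ j) ∧ p₁ j - p₀ j < s) →
        ∃ f' : LP F (ℕ × P), f' ≠ 0 ∧ Mult e w f' ∧ ∀ m, f'.coeff m ≠ 0 →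
          m.2 ∈ J ∧ -(σ * (p₁ m.2 - p₀ m.2)) ≤ m.1 ∧ (m.1 : ℝ) ≤ (1 - σ) * (p₁ m.2 - p₀ m.2)

theorem key2_of {ι : Type} [Fintype ι] (H : Core0 ι) : Key2 ι := by
  intro P _ dg α β σ c hα hβ h0 h1 hG B
  obtain ⟨F, hF, hF0, e, he⟩ := hG (2 * B)
  obtain ⟨e', he'⟩ := H F P σ (max 1 (2 * B + 1)) h0 h1 (le_max_left _ _) e
  have hchar : CharZero (HK F) :=
    charZero_of_injective_ringHom (f := (HahnSeries.C : F →+* HK F)) HahnSeries.C_injective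
  refine ⟨HK F, inferInstance, hchar, e', ?_⟩
  intro p q w hB hw f hf hM
  by_contra hne
  obtain ⟨J, g, h2, h3⟩ := div2J (K := HK F) hα hβ (HahnSeries.single 1 1) hf
  obtain ⟨f', h4, h5, h6⟩ := he' f w J g
    (fun j => 2 * p + 2 * α * (2 * j.1 + dg j.2)) (fun j => 2 * q - 2 * β * (2 * j.1 + dg j.2))
    hne hM h2 (by
      intro j _
      refine ⟨h3 j F, ?_⟩
      have e1 : (0 : ℝ) ≤ j.1 := Nat.cast_nonneg _
      have e2 : (0 : ℝ) ≤ dg j.2 := Nat.cast_nonneg _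
      have e3 : 2 * B + 1 ≤ max 1 (2 * B + 1) := le_max_right _ _
      nlinarith)
  apply h4
  refine he (2 * (q - p)) w (by linarith) (by linarith) f' ?_ h5
  intro m hm
  obtain ⟨_, h7, h8⟩ := h6 m hm
  constructor
  · refine le_trans (le_of_eq ?_) h7
    ring
  · refine le_trans h8 (le_of_eq ?_)
    ring

end Pool.Agent.TH386.IA
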